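import Mathlib

/-!
Windows of consecutive terms of an integer sequence with small least common multiple.
-/

set_option autoImplicit false

namespace Pool.Agent.Helper590.Lcm

open Finset

/-- `log n` as a sum of the von Mangoldt function over the divisors of a multiple `L` of `n`. -/
theorem log_eq_sum (n L : ℕ) (hL : L ≠ 0) (h : n ∣ L) :
    Real.log n = ∑ d ∈ L.divisors,
      ArithmeticFunction.vonMangoldt d * (if d ∣ n then (1 : ℝ) else 0) := by
  classical
  have hn : n ≠ 0 := fun h0 => hL (by rw [h0] at h; exact Nat.eq_zero_of_zero_dvd h)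
  rw [← ArithmeticFunction.vonMangoldt_sum]
  have e1 : n.divisors = L.divisors.filter (fun d => d ∣ n) := by
    ext d
    simp only [Nat.mem_divisors, Finset.mem_filter]
    constructor
    · rintro ⟨h1, _⟩
      exact ⟨⟨h1.trans h, hL⟩, h1⟩
    · rintro ⟨_, h2⟩
      exact ⟨h2, hn⟩
  rw [e1, Finset.sum_filter]
  apply Finset.sum_congr rfl
  intro d _
  split_ifs <;> simp

/-- The convexity inequality. -/
theorem convex_ineq (b : ℕ → ℕ) (k m L : ℕ) (hL : L ≠ 0) (hb : ∀ j ∈ range k, b j ∣ L) :
    0 ≤ (∑ i ∈ range k, ∑ j ∈ range k, Real.log ((Nat.gcd (b i) (b j) : ℕ) : ℝ))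
      - (2 * m + 1) * (∑ j ∈ range k, Real.log (b j)) + m * (m + 1) * Real.log L := by
  classical
  have e1 : ∀ i ∈ range k, ∀ j ∈ range k,
      Real.log ((Nat.gcd (b i) (b j) : ℕ) : ℝ) = ∑ d ∈ L.divisors,
        ArithmeticFunction.vonMangoldt d *
          ((if d ∣ b i then (1 : ℝ) else 0) * (if d ∣ b j then (1 : ℝ) else 0)) := by
    intro i hi j hj
    rw [log_eq_sum _ L hL ((Nat.gcd_dvd_left _ _).trans (hb i hi))]
    apply Finset.sum_congr rfl
    intro d _
    by_cases h1 : d ∣ b i <;> by_cases h2 : d ∣ b j <;> simp [Nat.dvd_gcd_iff, h1, h2]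
  have e2 : (∑ i ∈ range k, ∑ j ∈ range k, Real.log ((Nat.gcd (b i) (b j) : ℕ) : ℝ))
      = ∑ d ∈ L.divisors, ArithmeticFunction.vonMangoldt d *
        ((∑ i ∈ range k, (if d ∣ b i then (1 : ℝ) else 0)) ^ 2) := by
    calc (∑ i ∈ range k, ∑ j ∈ range k, Real.log ((Nat.gcd (b i) (b j) : ℕ) : ℝ))
        = ∑ i ∈ range k, ∑ j ∈ range k, ∑ d ∈ L.divisors,
          ArithmeticFunction.vonMangoldt d *
          ((if d ∣ b i then (1 : ℝ) else 0) * (if d ∣ b j then (1 : ℝ) else 0)) := by
          apply Finset.sum_congr rfl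
          intro i hi
          apply Finset.sum_congr rfl
          intro j hj
          exact e1 i hi j hj
      _ = ∑ i ∈ range k, ∑ d ∈ L.divisors, ∑ j ∈ range k,
          ArithmeticFunction.vonMangoldt d *
          ((if d ∣ b i then (1 : ℝ) else 0) * (if d ∣ b j then (1 : ℝ) else 0)) := by
          apply Finset.sum_congr rfl
          intro i _
          exact Finset.sum_comm
      _ = ∑ d ∈ L.divisors, ∑ i ∈ range k, ∑ j ∈ range k,
          ArithmeticFunction.vonMangoldt d *
          ((if d ∣ b i then (1 : ℝ) else 0) * (if d ∣ b j then (1 : ℝ) else 0)) :=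
          Finset.sum_comm
      _ = _ := by
          apply Finset.sum_congr rfl
          intro d _
          rw [sq, Finset.sum_mul_sum, Finset.mul_sum]
          apply Finset.sum_congr rfl
          intro i _
          rw [Finset.mul_sum]
  have e3 : (∑ j ∈ range k, Real.log (b j)) = ∑ d ∈ L.divisors,
      ArithmeticFunction.vonMangoldt d * (∑ i ∈ range k, (if d ∣ b i then (1 : ℝ) else 0)) := by
    calc (∑ j ∈ range k, Real.log (b j)) = ∑ j ∈ range k, ∑ d ∈ L.divisors,
          ArithmeticFunction.vonMangoldt d * (if d ∣ b j then (1 : ℝ) else 0) := by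
          apply Finset.sum_congr rfl
          intro j hj
          exact log_eq_sum _ L hL (hb j hj)
      _ = _ := by
          rw [Finset.sum_comm]
          apply Finset.sum_congr rfl
          intro d _
          rw [Finset.mul_sum]
  have e4 : Real.log (L : ℝ) = ∑ d ∈ L.divisors, ArithmeticFunction.vonMangoldt d :=
    ArithmeticFunction.vonMangoldt_sum.symm
  rw [e2, e3, e4, Finset.mul_sum, Finset.mul_sum, ← Finset.sum_sub_distrib,
    ← Finset.sum_add_distrib]
  apply Finset.sum_nonneg
  intro d _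
  have hc : (∑ i ∈ range k, (if d ∣ b i then (1 : ℝ) else 0))
      = (((range k).filter (fun i => d ∣ b i)).card : ℝ) := by
    rw [Finset.card_eq_sum_ones, Finset.sum_filter]
    push_cast
    rfl
  rw [hc]
  set c : ℕ := ((range k).filter (fun i => d ∣ b i)).card
  have hL0 : (0 : ℝ) ≤ ArithmeticFunction.vonMangoldt d := ArithmeticFunction.vonMangoldt_nonneg
  have hq : (0 : ℝ) ≤ ((c : ℝ) - m) * ((c : ℝ) - m - 1) := by
    rcases Nat.lt_or_ge m c with h | h
    · have h1 : (m : ℝ) + 1 ≤ c := by exact_mod_cast h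
      exact mul_nonneg (by linarith) (by linarith)
    · have h1 : (c : ℝ) ≤ m := by exact_mod_cast h
      exact mul_nonneg_of_nonpos_of_nonpos (by linarith) (by linarith)
  have : ArithmeticFunction.vonMangoldt d * (c : ℝ) ^ 2
      - (2 * (m : ℝ) + 1) * (ArithmeticFunction.vonMangoldt d * c)
      + (m : ℝ) * (m + 1) * ArithmeticFunction.vonMangoldt d
      = ArithmeticFunction.vonMangoldt d * (((c : ℝ) - m) * ((c : ℝ) - m - 1)) := by ring
  rw [this]
  exact mul_nonneg hL0 hq

/-- `2m+1` divisors of `L`, all at least `T`, with pairwise gcds at most `w`. -/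
theorem key (b : ℕ → ℕ) (m L w T : ℕ) (hm : 1 ≤ m) (hL : L ≠ 0)
    (hb : ∀ j ∈ range (2 * m + 1), b j ∣ L) (hT : 0 < T)
    (hTb : ∀ j ∈ range (2 * m + 1), T ≤ b j)
    (hw : ∀ i ∈ range (2 * m + 1), ∀ j ∈ range (2 * m + 1), i ≠ j → Nat.gcd (b i) (b j) ≤ w) :
    2 * (2 * m + 1) * Real.log T ≤ 2 * (2 * m + 1) * Real.log w + (m + 1) * Real.log L := by
  have h0 := convex_ineq b (2 * m + 1) m L hL hb
  have hmR : (1 : ℝ) ≤ m := by exact_mod_cast hm
  have hbpos : ∀ j ∈ range (2 * m + 1), 0 < b j := fun j hj => lt_of_lt_of_le hT (hTb j hj)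
  -- the double sum
  have h1 : (∑ i ∈ range (2 * m + 1), ∑ j ∈ range (2 * m + 1),
      Real.log ((Nat.gcd (b i) (b j) : ℕ) : ℝ))
      ≤ (∑ i ∈ range (2 * m + 1), Real.log (b i)) + (2 * m + 1) * (2 * m) * Real.log w := by
    have h2 : ∀ i ∈ range (2 * m + 1), (∑ j ∈ range (2 * m + 1),
        Real.log ((Nat.gcd (b i) (b j) : ℕ) : ℝ)) ≤ Real.log (b i) + (2 * m) * Real.log w := by
      intro i hi
      rw [← Finset.add_sum_erase _ _ hi, Nat.gcd_self]
      have h3 : (∑ j ∈ (range (2 * m + 1)).erase i, Real.log ((Nat.gcd (b i) (b j) : ℕ) : ℝ))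
          ≤ ((range (2 * m + 1)).erase i).card • Real.log w := by
        apply Finset.sum_le_card_nsmul
        intro j hj
        have hj' := Finset.mem_erase.mp hj
        have hg : 0 < Nat.gcd (b i) (b j) := Nat.gcd_pos_of_pos_left _ (hbpos i hi)
        apply Real.log_le_log (by exact_mod_cast hg)
        exact_mod_cast hw i hi j hj'.2 (Ne.symm hj'.1)
      rw [Finset.card_erase_of_mem hi, Finset.card_range, nsmul_eq_mul] at h3
      have e5 : ((2 * m + 1 - 1 : ℕ) : ℝ) = 2 * m := by
        rw [Nat.add_sub_cancel]; push_cast; ring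
      rw [e5] at h3
      linarith
    calc _ ≤ ∑ i ∈ range (2 * m + 1), (Real.log (b i) + (2 * m) * Real.log w) :=
          Finset.sum_le_sum h2
      _ = _ := by
          rw [Finset.sum_add_distrib, Finset.sum_const, Finset.card_range, nsmul_eq_mul]
          push_cast
          ring
  have h4 : (2 * m + 1) * Real.log T ≤ ∑ i ∈ range (2 * m + 1), Real.log (b i) := by
    have h5 : (range (2 * m + 1)).card • Real.log (T : ℝ)
        ≤ ∑ i ∈ range (2 * m + 1), Real.log (b i) := by
      apply Finset.card_nsmul_le_sum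
      intro j hj
      apply Real.log_le_log (by exact_mod_cast hT)
      exact_mod_cast hTb j hj
    rw [Finset.card_range, nsmul_eq_mul] at h5
    push_cast at h5
    exact h5
  have h6 : (0 : ℝ) ≤ m * (2 * (2 * m + 1) * Real.log w + (m + 1) * Real.log L
      - 2 * (2 * m + 1) * Real.log T) := by
    nlinarith [mul_le_mul_of_nonneg_left h4 (by linarith : (0 : ℝ) ≤ 2 * m)]
  have h7 := nonneg_of_mul_nonneg_right h6 (by linarith)
  linarith

/-- The potential function count. -/
theorem potential (a : ℕ → ℕ) (ha : StrictMono a) (hpos : ∀ n, 0 < a n) (m : ℕ)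
    (G : Finset ℕ) (l : ℝ) (hl : 0 ≤ l)
    (hG : ∀ i ∈ G, l ≤ Real.log (a (i + 2 * m)) - Real.log (a i)) (n : ℕ) :
    ((G.filter (fun i => i < n)).card : ℝ) * l ≤ ∑ t ∈ range (2 * m), Real.log (a (n + t)) := by
  induction n with
  | zero =>
    simp only [not_lt_zero, Finset.filter_false, Finset.card_empty, Nat.cast_zero, zero_mul]
    apply Finset.sum_nonneg
    intro t _
    apply Real.log_nonneg
    exact_mod_cast hpos _
  | succ n ih =>
    have e1 : (∑ t ∈ range (2 * m), Real.log (a (n + 1 + t)))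
        = (∑ t ∈ range (2 * m), Real.log (a (n + t))) + Real.log (a (n + 2 * m))
          - Real.log (a n) := by
      have s1 := Finset.sum_range_succ (fun t => Real.log (a (n + t))) (2 * m)
      have s2 := Finset.sum_range_succ' (fun t => Real.log (a (n + t))) (2 * m)
      have s3 : (∑ t ∈ range (2 * m), Real.log (a (n + (t + 1))))
          = ∑ t ∈ range (2 * m), Real.log (a (n + 1 + t)) := by
        apply Finset.sum_congr rfl
        intro t _
        rw [show n + (t + 1) = n + 1 + t by ring]
      simp only [add_zero] at s2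
      rw [s3] at s2
      linarith
    rw [e1]
    by_cases hn : n ∈ G
    · have e2 : (G.filter (fun i => i < n + 1)) = insert n (G.filter (fun i => i < n)) := by
        ext i
        simp only [Finset.mem_filter, Finset.mem_insert]
        constructor
        · rintro ⟨h1, h2⟩
          rcases Nat.lt_or_ge i n with h | h
          · exact Or.inr ⟨h1, h⟩
          · left; omega
        · rintro (h | ⟨h1, h2⟩)
          · subst h; exact ⟨hn, Nat.lt_succ_self _⟩
          · exact ⟨h1, by omega⟩
      rw [e2, Finset.card_insert_of_notMem (by simp)]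
      push_cast
      have := hG n hn
      linarith
    · have e2 : (G.filter (fun i => i < n + 1)) = (G.filter (fun i => i < n)) := by
        ext i
        simp only [Finset.mem_filter]
        constructor
        · rintro ⟨h1, h2⟩
          refine ⟨h1, ?_⟩
          rcases Nat.lt_or_ge i n with h | h
          · exact h
          · exfalso
            have : i = n := by omega
            subst this
            exact hn h1
        · rintro ⟨h1, h2⟩
          exact ⟨h1, by omega⟩
      rw [e2]
      have h3 : Real.log (a n) ≤ Real.log (a (n + 2 * m)) := by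
        apply Real.log_le_log (by exact_mod_cast hpos n)
        exact_mod_cast ha.monotone (by omega)
      linarith

/-- Window terms divide the lcm. -/
theorem dvd_lcm' (a : ℕ → ℕ) (i k j : ℕ) (hj : j ∈ range k) :
    a (i + j) ∣ (range k).lcm (fun j => a (i + j)) :=
  Finset.dvd_lcm (f := fun j => a (i + j)) hj

theorem lcm_ne_zero' (a : ℕ → ℕ) (hpos : ∀ n, 0 < a n) (i k : ℕ) :
    (range k).lcm (fun j => a (i + j)) ≠ 0 := by
  intro h
  rw [Finset.lcm_eq_zero_iff] at h
  obtain ⟨j, _, hj⟩ := h
  exact (hpos (i + j)).ne' hj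

/-- The main count. -/
theorem count_le (a : ℕ → ℕ) (ha : StrictMono a) (hpos : ∀ n, 0 < a n) (m : ℕ) (hm : 1 ≤ m)
    (X : ℝ) (hX : 1 ≤ X) :
    (({i : ℕ | (((range (2 * m + 1)).lcm (fun j => a (i + j)) : ℕ) : ℝ) < X}.ncard : ℕ) : ℝ)
      ≤ 4 * m * X ^ (((m : ℝ) + 1) / (4 * m + 2)) * Real.log X := by
  classical
  set S : Set ℕ := {i : ℕ | (((range (2 * m + 1)).lcm (fun j => a (i + j)) : ℕ) : ℝ) < X}
    with hS
  have hlast : ∀ i ∈ S, (a (i + 2 * m) : ℝ) < X := by
    intro i hi
    have h1 : a (i + 2 * m) ≤ (range (2 * m + 1)).lcm (fun j => a (i + j)) :=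
      Nat.le_of_dvd (Nat.pos_of_ne_zero (lcm_ne_zero' a hpos i _))
        (dvd_lcm' a i (2 * m + 1) (2 * m) (by simp))
    have h2 : (a (i + 2 * m) : ℝ) ≤ (((range (2 * m + 1)).lcm (fun j => a (i + j)) : ℕ) : ℝ) := by
      exact_mod_cast h1
    exact lt_of_le_of_lt h2 hi
  have hfin : S.Finite := by
    apply (Set.finite_lt_nat (⌈X⌉₊)).subset
    intro i hi
    have h1 := hlast i hi
    have h2' : i + 2 * m ≤ a (i + 2 * m) := ha.id_le (i + 2 * m)
    have h2 : i ≤ a (i + 2 * m) := by omega
    have h3 : (i : ℝ) < X := lt_of_le_of_lt (by exact_mod_cast h2) h1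
    exact Nat.lt_ceil.mpr h3
  set G : Finset ℕ := hfin.toFinset with hGdef
  have hGmem : ∀ i, i ∈ G ↔ i ∈ S := fun i => hfin.mem_toFinset
  have hcard : S.ncard = G.card := Set.ncard_eq_toFinset_card S hfin
  have hmR : (1 : ℝ) ≤ m := by exact_mod_cast hm
  have hXpos : (0 : ℝ) < X := by linarith
  set θ : ℝ := ((m : ℝ) + 1) / (4 * m + 2) with hθ
  have hθpos : 0 ≤ θ := by positivity
  set Y : ℝ := X ^ θ with hY
  have hY1 : 1 ≤ Y := Real.one_le_rpow hX hθpos
  have hlogX : 0 ≤ Real.log X := Real.log_nonneg hX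
  set l : ℝ := Real.log (1 + 1 / Y) with hl
  have hl0 : 0 ≤ l := Real.log_nonneg (by
    have : (0 : ℝ) ≤ 1 / Y := by positivity
    linarith)
  have hgap : ∀ i ∈ G, l ≤ Real.log (a (i + 2 * m)) - Real.log (a i) := by
    intro i hi
    have hiS : i ∈ S := (hGmem i).mp hi
    set w : ℕ := a (i + 2 * m) - a i with hw
    have hlt : a i < a (i + 2 * m) := ha (by omega)
    have hwpos : 0 < w := by omega
    have hk := key (fun j => a (i + j)) m ((range (2 * m + 1)).lcm (fun j => a (i + j))) w (a i)
      hm (lcm_ne_zero' a hpos i _) (fun j hj => dvd_lcm' a i _ j hj) (hpos i)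
      (fun j _ => ha.monotone (by omega)) (by
        have aux : ∀ p q, p < q → q ≤ 2 * m → Nat.gcd (a (i + p)) (a (i + q)) ≤ w := by
          intro p q hpq hq
          have h1 : a (i + p) < a (i + q) := ha (by omega)
          have h2 : Nat.gcd (a (i + p)) (a (i + q)) ∣ a (i + q) - a (i + p) :=
            Nat.dvd_sub (Nat.gcd_dvd_right _ _) (Nat.gcd_dvd_left _ _)
          have h3 := Nat.le_of_dvd (by omega) h2
          have h4 : a (i + q) ≤ a (i + 2 * m) := ha.monotone (by omega)
          have h5 : a i ≤ a (i + p) := ha.monotone (by omega)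
          omega
        intro p hp q hq hne
        rw [Finset.mem_range] at hp hq
        rcases Nat.lt_or_ge p q with h | h
        · exact aux p q h (by omega)
        · have h' : q < p := by omega
          show Nat.gcd (a (i + p)) (a (i + q)) ≤ w
          rw [Nat.gcd_comm]
          exact aux q p h' (by omega))
    have hLX : Real.log (((range (2 * m + 1)).lcm (fun j => a (i + j)) : ℕ) : ℝ)
        ≤ Real.log X := by
      apply Real.log_le_log
      · exact_mod_cast Nat.pos_of_ne_zero (lcm_ne_zero' a hpos i _)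
      · exact le_of_lt hiS
    have hden : (0 : ℝ) < 4 * m + 2 := by linarith
    have h8 : Real.log (a i) ≤ Real.log w + θ * Real.log X := by
      have h9 : (4 * (m : ℝ) + 2) * Real.log (a i)
          ≤ (4 * (m : ℝ) + 2) * (Real.log w + θ * Real.log X) := by
        have e6 : (4 * (m : ℝ) + 2) * (Real.log w + θ * Real.log X)
            = 2 * (2 * m + 1) * Real.log w + (m + 1) * Real.log X := by
          rw [hθ]; field_simp; ring
        rw [e6]
        nlinarith [mul_le_mul_of_nonneg_left hLX (by linarith : (0 : ℝ) ≤ (m : ℝ) + 1)]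
      exact le_of_mul_le_mul_left h9 hden
    have h10 : Real.log (w * Y) = Real.log w + θ * Real.log X := by
      rw [Real.log_mul (by exact_mod_cast hwpos.ne') (by positivity), hY, Real.log_rpow hXpos]
    have haiR : (0 : ℝ) < a i := by exact_mod_cast hpos i
    have hwR : (0 : ℝ) < w := by exact_mod_cast hwpos
    have h11 : (a i : ℝ) ≤ w * Y := by
      rw [← h10] at h8
      exact (Real.log_le_log_iff haiR (by positivity)).mp h8
    have h12 : (a (i + 2 * m) : ℝ) = a i + w := by
      have : a (i + 2 * m) = a i + w := by omega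
      rw [this]; push_cast; ring
    have h13 : (a i : ℝ) * (1 + 1 / Y) ≤ a (i + 2 * m) := by
      rw [h12]
      have : (a i : ℝ) * (1 / Y) ≤ w := by
        rw [mul_one_div, div_le_iff₀ (by positivity)]
        exact h11
      linarith
    have h14 : Real.log ((a i : ℝ) * (1 + 1 / Y)) ≤ Real.log (a (i + 2 * m)) :=
      Real.log_le_log (by positivity) h13
    rw [Real.log_mul haiR.ne' (by positivity)] at h14
    rw [hl]
    linarith
  rw [hcard]
  rcases G.eq_empty_or_nonempty with hE | hne
  · rw [hE]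
    simp only [Finset.card_empty, Nat.cast_zero]
    positivity
  · set n := G.max' hne with hn
    have hnG : n ∈ G := Finset.max'_mem _ _
    have hp := potential a ha hpos m G l hl0 hgap (n + 1)
    have e7 : G.filter (fun i => i < n + 1) = G := by
      apply Finset.filter_true_of_mem
      intro i hi
      have := Finset.le_max' G i hi
      omega
    rw [e7] at hp
    have h15 : (∑ t ∈ range (2 * m), Real.log (a (n + 1 + t))) ≤ (2 * m) * Real.log X := by
      have h16 : (∑ t ∈ range (2 * m), Real.log (a (n + 1 + t)))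
          ≤ (range (2 * m)).card • Real.log X := by
        apply Finset.sum_le_card_nsmul
        intro t ht
        rw [Finset.mem_range] at ht
        apply Real.log_le_log (by exact_mod_cast hpos _)
        have h17 : (a (n + 1 + t) : ℝ) ≤ a (n + 2 * m) := by
          exact_mod_cast ha.monotone (by omega)
        exact le_trans h17 (hlast n ((hGmem n).mp hnG)).le
      rw [Finset.card_range, nsmul_eq_mul] at h16
      push_cast at h16
      exact h16
    have h18 : 1 / (2 * Y) ≤ l := by
      have h19 : 1 - (1 + 1 / Y)⁻¹ ≤ l := by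
        rw [hl]
        exact Real.one_sub_inv_le_log_of_pos (by positivity)
      have h20 : 1 / (2 * Y) ≤ 1 - (1 + 1 / Y)⁻¹ := by
        have hYpos : (0 : ℝ) < Y := by linarith
        have e8 : 1 - (1 + 1 / Y)⁻¹ = 1 / (Y + 1) := by
          field_simp
          ring
        rw [e8]
        apply one_div_le_one_div_of_le (by linarith) (by linarith)
      linarith
    have h21 : (G.card : ℝ) * (1 / (2 * Y)) ≤ 2 * m * Real.log X := by
      calc (G.card : ℝ) * (1 / (2 * Y)) ≤ G.card * l :=
            mul_le_mul_of_nonneg_left h18 (Nat.cast_nonneg _)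
        _ ≤ _ := hp.trans h15
    have hYpos : (0 : ℝ) < 2 * Y := by linarith
    rw [mul_one_div, div_le_iff₀ hYpos] at h21
    calc (G.card : ℝ) ≤ 2 * m * Real.log X * (2 * Y) := h21
      _ = 4 * m * Y * Real.log X := by ring

/-- The conclusion of the question for every exponent above `1/4`. -/
theorem above_quarter (ε : ℝ) (hε : 1 / 4 < ε) :
    ∃ k : ℕ, 1 ≤ k ∧ ∀ a : ℕ → ℕ, StrictMono a → (∀ n, 0 < a n) →
      ∀ X : ℝ, 0 < X →
        (({i : ℕ | (((range k).lcm (fun j => a (i + j)) : ℕ) : ℝ) < X}.ncard : ℕ) : ℝ)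
          < X ^ ε := by
  classical
  -- choose `m`
  obtain ⟨m0, hm0⟩ := exists_nat_gt (1 / (ε - 1 / 4))
  set m : ℕ := m0 + 1 with hm
  have hm1 : 1 ≤ m := by omega
  have hmR : (1 : ℝ) ≤ m := by exact_mod_cast hm1
  set θ : ℝ := ((m : ℝ) + 1) / (4 * m + 2) with hθ
  have hδ : θ < ε := by
    have h1 : 1 / (ε - 1 / 4) < m := lt_of_lt_of_le hm0 (by rw [hm]; push_cast; linarith)
    have h2 : 0 < ε - 1 / 4 := by linarith
    rw [div_lt_iff₀ h2] at h1
    rw [hθ, div_lt_iff₀ (by linarith)]
    nlinarith
  -- growth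
  have hlim : Filter.Tendsto (fun X : ℝ => Real.log X / X ^ (ε - θ)) Filter.atTop (nhds 0) :=
    (isLittleO_log_rpow_atTop (by linarith)).tendsto_div_nhds_zero
  have hev : ∀ᶠ X : ℝ in Filter.atTop, Real.log X / X ^ (ε - θ) < 1 / (4 * m) :=
    hlim.eventually_lt_const (by positivity)
  obtain ⟨X1, hX1⟩ := Filter.eventually_atTop.mp hev
  obtain ⟨K0, hK0⟩ := exists_nat_ge X1
  set K : ℕ := K0 + (2 * m + 1) with hK
  refine ⟨K, by omega, ?_⟩
  intro a ha hpos X hX
  rcases le_or_gt X (K : ℝ) with hXK | hXK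
  · -- no windows
    have hempty : {i : ℕ | (((range K).lcm (fun j => a (i + j)) : ℕ) : ℝ) < X} = ∅ := by
      rw [Set.eq_empty_iff_forall_notMem]
      intro i hi
      have h1 : a (i + (K - 1)) ≤ (range K).lcm (fun j => a (i + j)) :=
        Nat.le_of_dvd (Nat.pos_of_ne_zero (lcm_ne_zero' a hpos i _))
          (dvd_lcm' a i K (K - 1) (by rw [Finset.mem_range]; omega))
      have h2 : ∀ n, n + 1 ≤ a n := by
        intro n
        induction n with
        | zero => exact hpos 0
        | succ n ih =>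
          have := ha (Nat.lt_succ_self n)
          simp only [Nat.succ_eq_add_one] at this
          omega
      have h3 := h2 (i + (K - 1))
      have h4 : K ≤ (range K).lcm (fun j => a (i + j)) := by omega
      have h5 : (K : ℝ) ≤ (((range K).lcm (fun j => a (i + j)) : ℕ) : ℝ) := by exact_mod_cast h4
      have h6 : (((range K).lcm (fun j => a (i + j)) : ℕ) : ℝ) < X := hi
      linarith
    rw [hempty, Set.ncard_empty, Nat.cast_zero]
    exact Real.rpow_pos_of_pos hX ε
  · have hKR : (1 : ℝ) ≤ K := by exact_mod_cast (by omega : 1 ≤ K)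
    have hX1' : (1 : ℝ) ≤ X := by linarith
    have hXX1 : X1 ≤ X := by
      have : (K0 : ℝ) ≤ K := by exact_mod_cast (by omega : K0 ≤ K)
      linarith
    have hc := count_le a ha hpos m hm1 X hX1'
    -- monotonicity in the window length
    set S : Set ℕ := {i : ℕ | (((range (2 * m + 1)).lcm (fun j => a (i + j)) : ℕ) : ℝ) < X}
      with hS
    have hsub : {i : ℕ | (((range K).lcm (fun j => a (i + j)) : ℕ) : ℝ) < X} ⊆ S := by
      intro i hi
      have h1 : (range (2 * m + 1)).lcm (fun j => a (i + j))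
          ∣ (range K).lcm (fun j => a (i + j)) := by
        apply Finset.lcm_dvd
        intro j hj
        rw [Finset.mem_range] at hj
        exact dvd_lcm' a i K j (by rw [Finset.mem_range]; omega)
      have h2 := Nat.le_of_dvd (Nat.pos_of_ne_zero (lcm_ne_zero' a hpos i _)) h1
      have h3 : (((range (2 * m + 1)).lcm (fun j => a (i + j)) : ℕ) : ℝ)
          ≤ (((range K).lcm (fun j => a (i + j)) : ℕ) : ℝ) := by exact_mod_cast h2
      exact lt_of_le_of_lt h3 hi
    have hfin : S.Finite := by
      apply (Set.finite_lt_nat (⌈X⌉₊)).subset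
      intro i hi
      have h1 : a (i + 0) ≤ (range (2 * m + 1)).lcm (fun j => a (i + j)) :=
        Nat.le_of_dvd (Nat.pos_of_ne_zero (lcm_ne_zero' a hpos i _))
          (dvd_lcm' a i (2 * m + 1) 0 (by simp))
      have h2 : i ≤ a (i + 0) := ha.id_le i
      have h3 : (i : ℝ) ≤ (((range (2 * m + 1)).lcm (fun j => a (i + j)) : ℕ) : ℝ) := by
        exact_mod_cast h2.trans h1
      have h4 : (((range (2 * m + 1)).lcm (fun j => a (i + j)) : ℕ) : ℝ) < X := hi
      exact Nat.lt_ceil.mpr (by linarith)
    have h7 : ({i : ℕ | (((range K).lcm (fun j => a (i + j)) : ℕ) : ℝ) < X}.ncard : ℕ)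
        ≤ S.ncard := Set.ncard_le_ncard hsub hfin
    have h8 : (({i : ℕ | (((range K).lcm (fun j => a (i + j)) : ℕ) : ℝ) < X}.ncard : ℕ) : ℝ)
        ≤ (S.ncard : ℝ) := by exact_mod_cast h7
    have h9 := hX1 X hXX1
    have hXpos : (0 : ℝ) < X := hX
    have hr : (0 : ℝ) < X ^ (ε - θ) := Real.rpow_pos_of_pos hXpos _
    rw [div_lt_iff₀ hr] at h9
    have h10 : 4 * m * X ^ θ * Real.log X < X ^ ε := by
      have h11 : X ^ ε = X ^ θ * X ^ (ε - θ) := by
        rw [← Real.rpow_add hXpos]; congr 1; ring
      rw [h11]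
      have h12 : (0 : ℝ) < X ^ θ := Real.rpow_pos_of_pos hXpos _
      have h13 : 4 * m * Real.log X < X ^ (ε - θ) := by
        have : 4 * (m : ℝ) * Real.log X < 4 * m * (1 / (4 * m) * X ^ (ε - θ)) :=
          mul_lt_mul_of_pos_left h9 (by positivity)
        have e9 : 4 * (m : ℝ) * (1 / (4 * m) * X ^ (ε - θ)) = X ^ (ε - θ) := by
          field_simp
        linarith
      calc 4 * m * X ^ θ * Real.log X = X ^ θ * (4 * m * Real.log X) := by ring
        _ < X ^ θ * X ^ (ε - θ) := mul_lt_mul_of_pos_left h13 h12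
    linarith

end Pool.Agent.Helper590.Lcm
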