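import Mathlib
import Pool.Agent.Helper590.Lcm.Main

/-!
Windows of consecutive terms with small least common multiple: location of the terms, and
sequences with small gaps.
-/

set_option autoImplicit false

namespace Pool.Agent.Helper590.Lcm

open Finset

/-- The convexity inequality with a real parameter. -/
theorem convex_real (b : ℕ → ℕ) (k L : ℕ) (μ : ℝ) (hL : L ≠ 0) (hb : ∀ j ∈ range k, b j ∣ L) :
    0 ≤ (∑ i ∈ range k, ∑ j ∈ range k, Real.log ((Nat.gcd (b i) (b j) : ℕ) : ℝ))
      - 2 * μ * (∑ j ∈ range k, Real.log (b j)) + μ ^ 2 * Real.log L := by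
  classical
  have e1 : ∀ i ∈ range k, ∀ j ∈ range k,
      Real.log ((Nat.gcd (b i) (b j) : ℕ) : ℝ) = ∑ d ∈ L.divisors,
        ArithmeticFunction.vonMangoldt d *
          ((if d ∣ b i then (1 : ℝ) else 0) * (if d ∣ b j then (1 : ℝ) else 0)) := by
    intro i hi j hj
    rw [log_eq_sum _ L hL ((Nat.gcd_dvd_left _ _).trans (hb i hi))]
    apply Finset.sum_congr rfl
    intro d _
    by_cases h1 : d ∣ b i <;> by_cases h2 : d ∣ b j <;> simp [Nat.dvd_gcd_iff, h1, h2]
  have e2 : (∑ i ∈ range k, ∑ j ∈ range k, Real.log ((Nat.gcd (b i) (b j) : ℕ) : ℝ))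
      = ∑ d ∈ L.divisors, ArithmeticFunction.vonMangoldt d *
        ((∑ i ∈ range k, (if d ∣ b i then (1 : ℝ) else 0)) ^ 2) := by
    calc (∑ i ∈ range k, ∑ j ∈ range k, Real.log ((Nat.gcd (b i) (b j) : ℕ) : ℝ))
        = ∑ i ∈ range k, ∑ j ∈ range k, ∑ d ∈ L.divisors,
          ArithmeticFunction.vonMangoldt d *
          ((if d ∣ b i then (1 : ℝ) else 0) * (if d ∣ b j then (1 : ℝ) else 0)) := by
          apply Finset.sum_congr rfl
          intro i hi
          apply Finset.sum_congr rfl
          intro j hj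
          exact e1 i hi j hj
      _ = ∑ i ∈ range k, ∑ d ∈ L.divisors, ∑ j ∈ range k,
          ArithmeticFunction.vonMangoldt d *
          ((if d ∣ b i then (1 : ℝ) else 0) * (if d ∣ b j then (1 : ℝ) else 0)) := by
          apply Finset.sum_congr rfl
          intro i _
          exact Finset.sum_comm
      _ = ∑ d ∈ L.divisors, ∑ i ∈ range k, ∑ j ∈ range k,
          ArithmeticFunction.vonMangoldt d *
          ((if d ∣ b i then (1 : ℝ) else 0) * (if d ∣ b j then (1 : ℝ) else 0)) :=
          Finset.sum_comm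
      _ = _ := by
          apply Finset.sum_congr rfl
          intro d _
          rw [sq, Finset.sum_mul_sum, Finset.mul_sum]
          apply Finset.sum_congr rfl
          intro i _
          rw [Finset.mul_sum]
  have e3 : (∑ j ∈ range k, Real.log (b j)) = ∑ d ∈ L.divisors,
      ArithmeticFunction.vonMangoldt d * (∑ i ∈ range k, (if d ∣ b i then (1 : ℝ) else 0)) := by
    calc (∑ j ∈ range k, Real.log (b j)) = ∑ j ∈ range k, ∑ d ∈ L.divisors,
          ArithmeticFunction.vonMangoldt d * (if d ∣ b j then (1 : ℝ) else 0) := by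
          apply Finset.sum_congr rfl
          intro j hj
          exact log_eq_sum _ L hL (hb j hj)
      _ = _ := by
          rw [Finset.sum_comm]
          apply Finset.sum_congr rfl
          intro d _
          rw [Finset.mul_sum]
  have e4 : Real.log (L : ℝ) = ∑ d ∈ L.divisors, ArithmeticFunction.vonMangoldt d :=
    ArithmeticFunction.vonMangoldt_sum.symm
  rw [e2, e3, e4, Finset.mul_sum, Finset.mul_sum, ← Finset.sum_sub_distrib,
    ← Finset.sum_add_distrib]
  apply Finset.sum_nonneg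
  intro d _
  set c : ℝ := ∑ i ∈ range k, (if d ∣ b i then (1 : ℝ) else 0)
  have hL0 : (0 : ℝ) ≤ ArithmeticFunction.vonMangoldt d := ArithmeticFunction.vonMangoldt_nonneg
  have : ArithmeticFunction.vonMangoldt d * c ^ 2
      - 2 * μ * (ArithmeticFunction.vonMangoldt d * c)
      + μ ^ 2 * ArithmeticFunction.vonMangoldt d
      = ArithmeticFunction.vonMangoldt d * (c - μ) ^ 2 := by ring
  rw [this]
  exact mul_nonneg hL0 (sq_nonneg _)

/-- Pairwise gcds inside a window are at most its diameter. -/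
theorem gcd_le_diam (a : ℕ → ℕ) (ha : StrictMono a) (i q p r : ℕ) (hp : p ≤ q) (hr : r ≤ q)
    (hne : p ≠ r) : Nat.gcd (a (i + p)) (a (i + r)) ≤ a (i + q) - a i := by
  have aux : ∀ p r, p < r → r ≤ q → Nat.gcd (a (i + p)) (a (i + r)) ≤ a (i + q) - a i := by
    intro p r hpr hr
    have h1 : a (i + p) < a (i + r) := ha (by omega)
    have h2 : Nat.gcd (a (i + p)) (a (i + r)) ∣ a (i + r) - a (i + p) :=
      Nat.dvd_sub (Nat.gcd_dvd_right _ _) (Nat.gcd_dvd_left _ _)
    have h3 := Nat.le_of_dvd (by omega) h2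
    have h4 : a (i + r) ≤ a (i + q) := ha.monotone (by omega)
    have h5 : a i ≤ a (i + p) := ha.monotone (by omega)
    omega
  rcases Nat.lt_or_ge p r with h | h
  · exact aux p r h hr
  · rw [Nat.gcd_comm]
    exact aux r p (by omega) hp

/-- The diameter of a window of `q+1` terms with lcm below `X`. -/
theorem gap_gen (a : ℕ → ℕ) (ha : StrictMono a) (hpos : ∀ n, 0 < a n) (q : ℕ) (hq : 1 ≤ q)
    (X : ℝ) (hX : 1 < X) (i : ℕ)
    (h : (((range (q + 1)).lcm (fun j => a (i + j)) : ℕ) : ℝ) < X) :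
    (Real.log (a i)) ^ 2 ≤ Real.log ((a (i + q) - a i : ℕ) : ℝ) * Real.log X
      + Real.log (a i) * Real.log X / (q + 1) := by
  set L : ℕ := (range (q + 1)).lcm (fun j => a (i + j)) with hLdef
  have hL0 : L ≠ 0 := lcm_ne_zero' a hpos i _
  set w : ℕ := a (i + q) - a i with hw
  have hlt : a i < a (i + q) := ha (by omega)
  have hwpos : 0 < w := by omega
  have hy : 0 < Real.log X := Real.log_pos hX
  have hlw : 0 ≤ Real.log (w : ℝ) := Real.log_nonneg (by exact_mod_cast hwpos)
  have hx : 0 ≤ Real.log (a i : ℝ) := Real.log_nonneg (by exact_mod_cast hpos i)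
  have hqR : (1 : ℝ) ≤ q := by exact_mod_cast hq
  set x : ℝ := Real.log (a i : ℝ) with hxdef
  set y : ℝ := Real.log X with hydef
  set μ : ℝ := (q + 1) * x / y with hμ
  have hμ0 : 0 ≤ μ := by positivity
  have h0 := convex_real (fun j => a (i + j)) (q + 1) L μ hL0 (fun j hj => dvd_lcm' a i _ j hj)
  beta_reduce at h0
  set S1 : ℝ := ∑ j ∈ range (q + 1), Real.log (a (i + j)) with hS1
  have h1 : (∑ s ∈ range (q + 1), ∑ t ∈ range (q + 1),
      Real.log ((Nat.gcd (a (i + s)) (a (i + t)) : ℕ) : ℝ))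
      ≤ S1 + (q + 1) * q * Real.log w := by
    have h2 : ∀ s ∈ range (q + 1), (∑ t ∈ range (q + 1),
        Real.log ((Nat.gcd (a (i + s)) (a (i + t)) : ℕ) : ℝ))
        ≤ Real.log (a (i + s)) + q * Real.log w := by
      intro s hs
      rw [← Finset.add_sum_erase _ _ hs, Nat.gcd_self]
      have h3 : (∑ t ∈ (range (q + 1)).erase s,
          Real.log ((Nat.gcd (a (i + s)) (a (i + t)) : ℕ) : ℝ))
          ≤ ((range (q + 1)).erase s).card • Real.log w := by
        apply Finset.sum_le_card_nsmul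
        intro t ht
        have ht' := Finset.mem_erase.mp ht
        have hg : 0 < Nat.gcd (a (i + s)) (a (i + t)) := Nat.gcd_pos_of_pos_left _ (hpos _)
        apply Real.log_le_log (by exact_mod_cast hg)
        have hs' := Finset.mem_range.mp hs
        have ht'' := Finset.mem_range.mp ht'.2
        exact_mod_cast gcd_le_diam a ha i q s t (by omega) (by omega) (Ne.symm ht'.1)
      rw [Finset.card_erase_of_mem hs, Finset.card_range, nsmul_eq_mul, Nat.add_sub_cancel] at h3
      linarith
    calc _ ≤ ∑ s ∈ range (q + 1), (Real.log (a (i + s)) + q * Real.log w) :=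
          Finset.sum_le_sum h2
      _ = _ := by
          rw [Finset.sum_add_distrib, Finset.sum_const, Finset.card_range, nsmul_eq_mul]
          push_cast
          ring
  have h4 : (q + 1) * x ≤ S1 := by
    have h5 : (range (q + 1)).card • x ≤ S1 := by
      apply Finset.card_nsmul_le_sum
      intro j hj
      apply Real.log_le_log (by exact_mod_cast hpos i)
      exact_mod_cast ha.monotone (by omega)
    rw [Finset.card_range, nsmul_eq_mul] at h5
    push_cast at h5
    exact h5
  have hLX : Real.log (L : ℝ) ≤ y :=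
    Real.log_le_log (by exact_mod_cast Nat.pos_of_ne_zero hL0) h.le
  rcases lt_or_ge (2 * μ) 1 with hc | hc
  · -- trivial case
    have h6 : 2 * ((q + 1) * x) < y := by
      rw [hμ] at hc
      have : 2 * ((q + 1) * x / y) * y < 1 * y := mul_lt_mul_of_pos_right hc hy
      have e : 2 * ((q + 1) * x / y) * y = 2 * ((q + 1) * x) := by field_simp
      linarith
    have h7 : x ^ 2 ≤ x * y / (q + 1) := by
      rw [le_div_iff₀ (by linarith)]
      nlinarith [mul_nonneg hx (by linarith : (0 : ℝ) ≤ y - 2 * ((q + 1) * x)),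
        mul_nonneg hx (mul_nonneg (by linarith : (0 : ℝ) ≤ (q : ℝ) + 1) hx)]
    have h8 : 0 ≤ Real.log (w : ℝ) * y := mul_nonneg hlw hy.le
    linarith
  · have h9 : (2 * μ - 1) * ((q + 1) * x) ≤ (2 * μ - 1) * S1 :=
      mul_le_mul_of_nonneg_left h4 (by linarith)
    have h10 : μ ^ 2 * Real.log (L : ℝ) ≤ μ ^ 2 * y :=
      mul_le_mul_of_nonneg_left hLX (sq_nonneg _)
    have h11 : (2 * μ - 1) * ((q + 1) * x) ≤ (q + 1) * q * Real.log w + μ ^ 2 * y := by
      nlinarith
    have e12 : μ * y = (q + 1) * x := by rw [hμ]; field_simp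
    have h13 : μ ^ 2 * y = μ * ((q + 1) * x) := by rw [sq, mul_assoc, e12]
    have h14 : μ * ((q + 1) * x) ≤ (q + 1) * q * Real.log w + (q + 1) * x := by
      rw [h13] at h11
      linarith
    have h15 : (q + 1) * (μ * x) ≤ (q + 1) * (q * Real.log w + x) := by
      nlinarith
    have h16 : μ * x ≤ q * Real.log w + x := le_of_mul_le_mul_left h15 (by linarith)
    have h17 : (μ * y) * x ≤ (q * Real.log w + x) * y := by
      have := mul_le_mul_of_nonneg_right h16 hy.le
      nlinarith
    rw [e12] at h17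
    have h18 : (q + 1) * x ^ 2 ≤ (q + 1) * (Real.log w * y) + x * y := by
      have : 0 ≤ Real.log (w : ℝ) * y := mul_nonneg hlw hy.le
      nlinarith
    have hq1 : (0 : ℝ) < (q : ℝ) + 1 := by linarith
    have h19 : (q + 1) * x ^ 2 ≤ (q + 1) * (Real.log w * y + x * y / (q + 1)) := by
      have e20 : (q + 1) * (Real.log w * y + x * y / (q + 1))
          = (q + 1) * (Real.log w * y) + x * y := by field_simp
      rw [e20]; exact h18
    exact le_of_mul_le_mul_left h19 hq1

/-- Potential function, general length. -/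
theorem potential_gen (a : ℕ → ℕ) (ha : StrictMono a) (hpos : ∀ n, 0 < a n) (q : ℕ)
    (G : Finset ℕ) (l : ℝ)
    (hG : ∀ i ∈ G, l ≤ Real.log (a (i + q)) - Real.log (a i)) (n : ℕ) :
    ((G.filter (fun i => i < n)).card : ℝ) * l ≤ ∑ t ∈ range q, Real.log (a (n + t)) := by
  induction n with
  | zero =>
    simp only [not_lt_zero, Finset.filter_false, Finset.card_empty, Nat.cast_zero, zero_mul]
    apply Finset.sum_nonneg
    intro t _
    apply Real.log_nonneg
    exact_mod_cast hpos _
  | succ n ih =>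
    have e1 : (∑ t ∈ range q, Real.log (a (n + 1 + t)))
        = (∑ t ∈ range q, Real.log (a (n + t))) + Real.log (a (n + q))
          - Real.log (a n) := by
      have s1 := Finset.sum_range_succ (fun t => Real.log (a (n + t))) q
      have s2 := Finset.sum_range_succ' (fun t => Real.log (a (n + t))) q
      have s3 : (∑ t ∈ range q, Real.log (a (n + (t + 1))))
          = ∑ t ∈ range q, Real.log (a (n + 1 + t)) := by
        apply Finset.sum_congr rfl
        intro t _
        rw [show n + (t + 1) = n + 1 + t by ring]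
      simp only [add_zero] at s2
      rw [s3] at s2
      linarith
    rw [e1]
    by_cases hn : n ∈ G
    · have e2 : (G.filter (fun i => i < n + 1)) = insert n (G.filter (fun i => i < n)) := by
        ext i
        simp only [Finset.mem_filter, Finset.mem_insert]
        constructor
        · rintro ⟨h1, h2⟩
          rcases Nat.lt_or_ge i n with h | h
          · exact Or.inr ⟨h1, h⟩
          · left; omega
        · rintro (h | ⟨h1, h2⟩)
          · subst h; exact ⟨hn, Nat.lt_succ_self _⟩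
          · exact ⟨h1, by omega⟩
      rw [e2, Finset.card_insert_of_notMem (by simp)]
      push_cast
      have := hG n hn
      linarith
    · have e2 : (G.filter (fun i => i < n + 1)) = (G.filter (fun i => i < n)) := by
        ext i
        simp only [Finset.mem_filter]
        constructor
        · rintro ⟨h1, h2⟩
          refine ⟨h1, ?_⟩
          rcases Nat.lt_or_ge i n with h | h
          · exact h
          · exfalso
            have : i = n := by omega
            subst this
            exact hn h1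
        · rintro ⟨h1, h2⟩
          exact ⟨h1, by omega⟩
      rw [e2]
      have h3 : Real.log (a n) ≤ Real.log (a (n + q)) := by
        apply Real.log_le_log (by exact_mod_cast hpos n)
        exact_mod_cast ha.monotone (by omega)
      linarith

/-- Counting windows whose diameter is at least `a i / X ^ θ`. -/
theorem count_core (a : ℕ → ℕ) (ha : StrictMono a) (hpos : ∀ n, 0 < a n) (q : ℕ)
    (X θ : ℝ) (hX : 1 ≤ X) (hθ : 0 ≤ θ) (hq : 1 ≤ q) (S : Set ℕ)
    (hS : ∀ i ∈ S, (((range (q + 1)).lcm (fun j => a (i + j)) : ℕ) : ℝ) < X ∧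
      Real.log (a i) ≤ Real.log ((a (i + q) - a i : ℕ) : ℝ) + θ * Real.log X) :
    (S.ncard : ℝ) ≤ 2 * q * X ^ θ * Real.log X := by
  classical
  have hlast : ∀ i ∈ S, (a (i + q) : ℝ) < X := by
    intro i hi
    have h1 : a (i + q) ≤ (range (q + 1)).lcm (fun j => a (i + j)) :=
      Nat.le_of_dvd (Nat.pos_of_ne_zero (lcm_ne_zero' a hpos i _))
        (dvd_lcm' a i (q + 1) q (by simp))
    have h2 : (a (i + q) : ℝ) ≤ (((range (q + 1)).lcm (fun j => a (i + j)) : ℕ) : ℝ) := by
      exact_mod_cast h1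
    exact lt_of_le_of_lt h2 (hS i hi).1
  have hfin : S.Finite := by
    apply (Set.finite_lt_nat (⌈X⌉₊)).subset
    intro i hi
    have h1 := hlast i hi
    have h2' : i + q ≤ a (i + q) := ha.id_le (i + q)
    have h2 : i ≤ a (i + q) := by omega
    have h3 : (i : ℝ) < X := lt_of_le_of_lt (by exact_mod_cast h2) h1
    exact Nat.lt_ceil.mpr h3
  set G : Finset ℕ := hfin.toFinset with hGdef
  have hGmem : ∀ i, i ∈ G ↔ i ∈ S := fun i => hfin.mem_toFinset
  have hcard : S.ncard = G.card := Set.ncard_eq_toFinset_card S hfin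
  have hXpos : (0 : ℝ) < X := by linarith
  set Y : ℝ := X ^ θ with hY
  have hY1 : 1 ≤ Y := Real.one_le_rpow hX hθ
  have hlogX : 0 ≤ Real.log X := Real.log_nonneg hX
  set l : ℝ := Real.log (1 + 1 / Y) with hl
  have hgap : ∀ i ∈ G, l ≤ Real.log (a (i + q)) - Real.log (a i) := by
    intro i hi
    have hiS : i ∈ S := (hGmem i).mp hi
    have h8 := (hS i hiS).2
    set w : ℕ := a (i + q) - a i with hw
    have hlt : a i < a (i + q) := ha (by omega)
    have hwpos : 0 < w := by omega
    have h10 : Real.log (w * Y) = Real.log w + θ * Real.log X := by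
      rw [Real.log_mul (by exact_mod_cast hwpos.ne') (by positivity), hY, Real.log_rpow hXpos]
    have haiR : (0 : ℝ) < a i := by exact_mod_cast hpos i
    have hwR : (0 : ℝ) < w := by exact_mod_cast hwpos
    have h11 : (a i : ℝ) ≤ w * Y := by
      rw [← h10] at h8
      exact (Real.log_le_log_iff haiR (by positivity)).mp h8
    have h12 : (a (i + q) : ℝ) = a i + w := by
      have : a (i + q) = a i + w := by omega
      rw [this]; push_cast; ring
    have h13 : (a i : ℝ) * (1 + 1 / Y) ≤ a (i + q) := by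
      rw [h12]
      have : (a i : ℝ) * (1 / Y) ≤ w := by
        rw [mul_one_div, div_le_iff₀ (by positivity)]
        exact h11
      linarith
    have h14 : Real.log ((a i : ℝ) * (1 + 1 / Y)) ≤ Real.log (a (i + q)) :=
      Real.log_le_log (by positivity) h13
    rw [Real.log_mul haiR.ne' (by positivity)] at h14
    rw [hl]
    linarith
  rw [hcard]
  rcases G.eq_empty_or_nonempty with hE | hne
  · rw [hE]
    simp only [Finset.card_empty, Nat.cast_zero]
    positivity
  · set n := G.max' hne with hn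
    have hnG : n ∈ G := Finset.max'_mem _ _
    have hp := potential_gen a ha hpos q G l hgap (n + 1)
    have e7 : G.filter (fun i => i < n + 1) = G := by
      apply Finset.filter_true_of_mem
      intro i hi
      have := Finset.le_max' G i hi
      omega
    rw [e7] at hp
    have h15 : (∑ t ∈ range q, Real.log (a (n + 1 + t))) ≤ q * Real.log X := by
      have h16 : (∑ t ∈ range q, Real.log (a (n + 1 + t)))
          ≤ (range q).card • Real.log X := by
        apply Finset.sum_le_card_nsmul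
        intro t ht
        rw [Finset.mem_range] at ht
        apply Real.log_le_log (by exact_mod_cast hpos _)
        have h17 : (a (n + 1 + t) : ℝ) ≤ a (n + q) := by
          exact_mod_cast ha.monotone (by omega)
        exact le_trans h17 (hlast n ((hGmem n).mp hnG)).le
      rw [Finset.card_range, nsmul_eq_mul] at h16
      exact h16
    have h18 : 1 / (2 * Y) ≤ l := by
      have h19 : 1 - (1 + 1 / Y)⁻¹ ≤ l := by
        rw [hl]
        exact Real.one_sub_inv_le_log_of_pos (by positivity)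
      have h20 : 1 / (2 * Y) ≤ 1 - (1 + 1 / Y)⁻¹ := by
        have hYpos : (0 : ℝ) < Y := by linarith
        have e8 : 1 - (1 + 1 / Y)⁻¹ = 1 / (Y + 1) := by
          field_simp
          ring
        rw [e8]
        apply one_div_le_one_div_of_le (by linarith) (by linarith)
      linarith
    have h21 : (G.card : ℝ) * (1 / (2 * Y)) ≤ q * Real.log X := by
      calc (G.card : ℝ) * (1 / (2 * Y)) ≤ G.card * l :=
            mul_le_mul_of_nonneg_left h18 (Nat.cast_nonneg _)
        _ ≤ _ := hp.trans h15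
    have hYpos : (0 : ℝ) < 2 * Y := by linarith
    rw [mul_one_div, div_le_iff₀ hYpos] at h21
    calc (G.card : ℝ) ≤ q * Real.log X * (2 * Y) := h21
      _ = 2 * q * Y * Real.log X := by ring

/-- Growth comparison. -/
theorem growth (c θ ε : ℝ) (hc : 0 ≤ c) (h : θ < ε) :
    ∃ X1 : ℝ, 1 ≤ X1 ∧ ∀ X : ℝ, X1 ≤ X → c * X ^ θ * Real.log X < X ^ ε := by
  have hlim : Filter.Tendsto (fun X : ℝ => Real.log X / X ^ (ε - θ)) Filter.atTop (nhds 0) :=
    (isLittleO_log_rpow_atTop (by linarith)).tendsto_div_nhds_zero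
  have hev : ∀ᶠ X : ℝ in Filter.atTop, Real.log X / X ^ (ε - θ) < 1 / (c + 1) :=
    hlim.eventually_lt_const (by positivity)
  obtain ⟨X1, hX1⟩ := Filter.eventually_atTop.mp hev
  refine ⟨max X1 1, le_max_right _ _, ?_⟩
  intro X hX
  have h1 : X1 ≤ X := le_trans (le_max_left _ _) hX
  have h2 : (1 : ℝ) ≤ X := le_trans (le_max_right _ _) hX
  have hXpos : (0 : ℝ) < X := by linarith
  have h9 := hX1 X h1
  have hr : (0 : ℝ) < X ^ (ε - θ) := Real.rpow_pos_of_pos hXpos _
  rw [div_lt_iff₀ hr] at h9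
  have hlog : 0 ≤ Real.log X := Real.log_nonneg h2
  have h11 : X ^ ε = X ^ θ * X ^ (ε - θ) := by
    rw [← Real.rpow_add hXpos]; congr 1; ring
  rw [h11]
  have h12 : (0 : ℝ) < X ^ θ := Real.rpow_pos_of_pos hXpos _
  have h13 : c * Real.log X < X ^ (ε - θ) := by
    have h14 : (c + 1) * Real.log X < X ^ (ε - θ) := by
      have : (c + 1) * Real.log X < (c + 1) * (1 / (c + 1) * X ^ (ε - θ)) :=
        mul_lt_mul_of_pos_left h9 (by positivity)
      have e9 : (c + 1) * (1 / (c + 1) * X ^ (ε - θ)) = X ^ (ε - θ) := by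
        field_simp
      linarith
    nlinarith
  calc c * X ^ θ * Real.log X = X ^ θ * (c * Real.log X) := by ring
    _ < X ^ θ * X ^ (ε - θ) := mul_lt_mul_of_pos_left h13 h12

/-- From a bound for large `X` and short windows to a bound for all `X` and long windows. -/
theorem finish (a : ℕ → ℕ) (ha : StrictMono a) (hpos : ∀ n, 0 < a n) (Q : ℝ → ℕ → Prop)
    (ε : ℝ) (k0 K : ℕ) (hk0 : 1 ≤ k0) (hK : k0 ≤ K)
    (H : ∀ X : ℝ, (K : ℝ) < X →
      (({i : ℕ | (((range k0).lcm (fun j => a (i + j)) : ℕ) : ℝ) < X ∧ Q X i}.ncard : ℕ) : ℝ)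
        < X ^ ε) (X : ℝ) (hX : 0 < X) :
    (({i : ℕ | (((range K).lcm (fun j => a (i + j)) : ℕ) : ℝ) < X ∧ Q X i}.ncard : ℕ) : ℝ)
      < X ^ ε := by
  classical
  rcases le_or_gt X (K : ℝ) with hXK | hXK
  · have hempty : {i : ℕ | (((range K).lcm (fun j => a (i + j)) : ℕ) : ℝ) < X ∧ Q X i} = ∅ := by
      rw [Set.eq_empty_iff_forall_notMem]
      rintro i ⟨hi, _⟩
      have h1 : a (i + (K - 1)) ≤ (range K).lcm (fun j => a (i + j)) :=
        Nat.le_of_dvd (Nat.pos_of_ne_zero (lcm_ne_zero' a hpos i _))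
          (dvd_lcm' a i K (K - 1) (by rw [Finset.mem_range]; omega))
      have h2 : ∀ n, n + 1 ≤ a n := by
        intro n
        induction n with
        | zero => exact hpos 0
        | succ n ih =>
          have := ha (Nat.lt_succ_self n)
          simp only [Nat.succ_eq_add_one] at this
          omega
      have h3 := h2 (i + (K - 1))
      have h4 : K ≤ (range K).lcm (fun j => a (i + j)) := by omega
      have h5 : (K : ℝ) ≤ (((range K).lcm (fun j => a (i + j)) : ℕ) : ℝ) := by exact_mod_cast h4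
      linarith
    rw [hempty, Set.ncard_empty, Nat.cast_zero]
    exact Real.rpow_pos_of_pos hX ε
  · have h0 := H X hXK
    set S : Set ℕ := {i : ℕ | (((range k0).lcm (fun j => a (i + j)) : ℕ) : ℝ) < X ∧ Q X i}
      with hS
    have hsub : {i : ℕ | (((range K).lcm (fun j => a (i + j)) : ℕ) : ℝ) < X ∧ Q X i} ⊆ S := by
      rintro i ⟨hi, hQ⟩
      have h1 : (range k0).lcm (fun j => a (i + j)) ∣ (range K).lcm (fun j => a (i + j)) := by
        apply Finset.lcm_dvd
        intro j hj
        rw [Finset.mem_range] at hj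
        exact dvd_lcm' a i K j (by rw [Finset.mem_range]; omega)
      have h2 := Nat.le_of_dvd (Nat.pos_of_ne_zero (lcm_ne_zero' a hpos i _)) h1
      have h3 : (((range k0).lcm (fun j => a (i + j)) : ℕ) : ℝ)
          ≤ (((range K).lcm (fun j => a (i + j)) : ℕ) : ℝ) := by exact_mod_cast h2
      exact ⟨lt_of_le_of_lt h3 hi, hQ⟩
    have hfin : S.Finite := by
      apply (Set.finite_lt_nat (⌈X⌉₊)).subset
      rintro i ⟨hi, _⟩
      have h1 : a (i + 0) ≤ (range k0).lcm (fun j => a (i + j)) :=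
        Nat.le_of_dvd (Nat.pos_of_ne_zero (lcm_ne_zero' a hpos i _))
          (dvd_lcm' a i k0 0 (by rw [Finset.mem_range]; omega))
      have h2 : i ≤ a (i + 0) := ha.id_le i
      have h3 : (i : ℝ) ≤ (((range k0).lcm (fun j => a (i + j)) : ℕ) : ℝ) := by
        exact_mod_cast h2.trans h1
      exact Nat.lt_ceil.mpr (by linarith)
    have h7 : ({i : ℕ | (((range K).lcm (fun j => a (i + j)) : ℕ) : ℝ) < X ∧ Q X i}.ncard : ℕ)
        ≤ S.ncard := Set.ncard_le_ncard hsub hfin
    have h8 : (({i : ℕ | (((range K).lcm (fun j => a (i + j)) : ℕ) : ℝ) < X ∧ Q X i}.ncard : ℕ) :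
        ℝ) ≤ (S.ncard : ℝ) := by exact_mod_cast h7
    linarith

/-- Windows whose first term `X ^ τ` has `τ (1 - τ) ≤ κ`. -/
theorem located (κ ε : ℝ) (hκ : 0 ≤ κ) (hε : κ < ε) :
    ∃ k : ℕ, 1 ≤ k ∧ ∀ a : ℕ → ℕ, StrictMono a → (∀ n, 0 < a n) →
      ∀ X : ℝ, 0 < X →
        (({i : ℕ | (((range k).lcm (fun j => a (i + j)) : ℕ) : ℝ) < X ∧
          Real.log (a i) * (Real.log X - Real.log (a i)) ≤ κ * Real.log X ^ 2}.ncard : ℕ) : ℝ)
          < X ^ ε := by
  obtain ⟨q0, hq0⟩ := exists_nat_gt (1 / (ε - κ))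
  set q : ℕ := q0 + 1 with hqdef
  have hq : 1 ≤ q := by omega
  have hqR : (1 : ℝ) ≤ q := by exact_mod_cast hq
  have hq1 : (0 : ℝ) < (q : ℝ) + 1 := by linarith
  set θ : ℝ := κ + 1 / (q + 1) with hθ
  have hθ0 : 0 ≤ θ := by positivity
  have hθε : θ < ε := by
    have h1 : 1 / (ε - κ) < (q : ℝ) + 1 := by
      have : (q0 : ℝ) ≤ q := by exact_mod_cast (by omega : q0 ≤ q)
      linarith
    have h2 : 0 < ε - κ := by linarith
    rw [div_lt_iff₀ h2] at h1
    have h3 : 1 / ((q : ℝ) + 1) < ε - κ := by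
      rw [div_lt_iff₀ hq1]
      linarith
    rw [hθ]; linarith
  obtain ⟨X1, hX1, hgr⟩ := growth (2 * q) θ ε (by positivity) hθε
  obtain ⟨K0, hK0⟩ := exists_nat_ge X1
  refine ⟨K0 + (q + 1), by omega, ?_⟩
  intro a ha hpos X hX
  refine finish a ha hpos (fun X i => Real.log (a i) * (Real.log X - Real.log (a i))
    ≤ κ * Real.log X ^ 2) ε (q + 1) (K0 + (q + 1)) (by omega) (by omega) ?_ X hX
  intro Z hZ
  have hK0K : (K0 : ℝ) ≤ ((K0 + (q + 1) : ℕ) : ℝ) := by exact_mod_cast (by omega)
  have hZX1 : X1 ≤ Z := by linarith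
  have hK1 : (1 : ℝ) ≤ ((K0 + (q + 1) : ℕ) : ℝ) := by exact_mod_cast (by omega)
  have hZ1 : 1 < Z := by linarith
  refine lt_of_le_of_lt ?_ (hgr Z hZX1)
  apply count_core a ha hpos q Z θ hZ1.le hθ0 hq
  rintro i ⟨hi, hc⟩
  refine ⟨hi, ?_⟩
  have hy : 0 < Real.log Z := Real.log_pos hZ1
  have hg := gap_gen a ha hpos q hq Z hZ1 i hi
  have hxy : Real.log (a i : ℝ) ≤ Real.log Z := by
    apply Real.log_le_log (by exact_mod_cast hpos i)
    have h1 : a (i + 0) ≤ (range (q + 1)).lcm (fun j => a (i + j)) :=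
      Nat.le_of_dvd (Nat.pos_of_ne_zero (lcm_ne_zero' a hpos i _))
        (dvd_lcm' a i (q + 1) 0 (by simp))
    have h2 : (a i : ℝ) ≤ (((range (q + 1)).lcm (fun j => a (i + j)) : ℕ) : ℝ) := by
      exact_mod_cast h1
    linarith
  set x : ℝ := Real.log (a i : ℝ) with hx
  set y : ℝ := Real.log Z with hydef
  set lw : ℝ := Real.log ((a (i + q) - a i : ℕ) : ℝ) with hlw
  have h3 : x * y ≤ (lw + θ * y) * y := by
    have h4 : x * y / (q + 1) ≤ y ^ 2 / (q + 1) := by
      apply div_le_div_of_nonneg_right _ hq1.le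
      nlinarith
    have e5 : (lw + θ * y) * y = lw * y + κ * y ^ 2 + y ^ 2 / (q + 1) := by
      rw [hθ]; field_simp; ring
    rw [e5]
    nlinarith
  exact le_of_mul_le_mul_right h3 hy

/-- Sequences with gaps at most `C a_n ^ γ`. -/
theorem small_gaps (γ C ε : ℝ) (hγ0 : 0 ≤ γ) (hγ : γ ≤ 1 / 2) (hε : γ * (1 - γ) < ε) :
    ∃ k : ℕ, 1 ≤ k ∧ ∀ a : ℕ → ℕ, StrictMono a → (∀ n, 0 < a n) →
      (∀ n, (a (n + 1) : ℝ) - a n ≤ C * (a n : ℝ) ^ γ) →
      ∀ X : ℝ, 0 < X →
        (({i : ℕ | (((range k).lcm (fun j => a (i + j)) : ℕ) : ℝ) < X}.ncard : ℕ) : ℝ)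
          < X ^ ε := by
  rcases lt_or_ge (1 / 4) ε with hbig | hsmall
  · obtain ⟨k, hk, h⟩ := above_quarter ε hbig
    exact ⟨k, hk, fun a ha hpos _ X hX => h a ha hpos X hX⟩
  have hγ2 : γ < 1 / 2 := by
    rcases lt_or_eq_of_le hγ with h | h
    · exact h
    · rw [h] at hε; norm_num at hε; linarith
  -- choose `η`
  obtain ⟨η, hη0, hη1, hη2⟩ : ∃ η : ℝ, 0 < η ∧ γ + η ≤ 1 / 2 ∧ γ * (1 - γ) + 2 * η ≤ ε := by
    refine ⟨min (1 / 2 - γ) ((ε - γ * (1 - γ)) / 2), ?_, ?_, ?_⟩
    · apply lt_min <;> linarith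
    · linarith [min_le_left (1 / 2 - γ) ((ε - γ * (1 - γ)) / 2)]
    · linarith [min_le_right (1 / 2 - γ) ((ε - γ * (1 - γ)) / 2)]
  obtain ⟨q0, hq0⟩ := exists_nat_gt (2 / η)
  set q : ℕ := q0 + 1 with hqdef
  have hq : 1 ≤ q := by omega
  have hqR : (1 : ℝ) ≤ q := by exact_mod_cast hq
  have hq1 : (0 : ℝ) < (q : ℝ) + 1 := by linarith
  have hqη : 1 / ((q : ℝ) + 1) ≤ η / 2 := by
    have h1 : 2 / η < (q : ℝ) + 1 := by
      have : (q0 : ℝ) ≤ q := by exact_mod_cast (by omega : q0 ≤ q)
      linarith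
    rw [div_lt_iff₀ hη0] at h1
    rw [div_le_iff₀ hq1]
    nlinarith
  set g : ℝ := γ + η with hg
  set θ : ℝ := g * (1 - g) + 1 / (q + 1) with hθ
  have hg0 : 0 < g := by linarith
  have hg1 : g ≤ 1 / 2 := hη1
  have hθ0 : 0 ≤ θ := by
    have : 0 ≤ g * (1 - g) := mul_nonneg hg0.le (by linarith)
    positivity
  have hθε : θ < ε := by
    have h1 : g * (1 - g) ≤ γ * (1 - γ) + η := by
      rw [hg]; nlinarith
    rw [hθ]; linarith
  set D : ℝ := q * (max C 1) * 2 with hD
  have hC1 : (1 : ℝ) ≤ max C 1 := le_max_right _ _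
  have hD1 : 1 ≤ D := by
    rw [hD]; nlinarith
  obtain ⟨X1, hX1, hgr⟩ := growth (2 * q) θ ε (by positivity) hθε
  obtain ⟨K0, hK0⟩ := exists_nat_ge (max X1 (Real.exp (2 * Real.log D / η ^ 2)))
  refine ⟨K0 + (q + 1), by omega, ?_⟩
  intro a ha hpos hgaps X hX
  have hfin := finish a ha hpos (fun _ _ => True) ε (q + 1) (K0 + (q + 1)) (by omega) (by omega)
    ?_ X hX
  · simpa using hfin
  intro Z hZ
  have hK0K : (K0 : ℝ) ≤ ((K0 + (q + 1) : ℕ) : ℝ) := by exact_mod_cast (by omega)
  have hZX1 : X1 ≤ Z := by linarith [le_max_left X1 (Real.exp (2 * Real.log D / η ^ 2))]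
  have hZE : Real.exp (2 * Real.log D / η ^ 2) < Z := by
    linarith [le_max_right X1 (Real.exp (2 * Real.log D / η ^ 2))]
  have hK1 : (1 : ℝ) ≤ ((K0 + (q + 1) : ℕ) : ℝ) := by exact_mod_cast (by omega)
  have hZ1 : 1 < Z := by linarith
  have hZpos : 0 < Z := by linarith
  refine lt_of_le_of_lt ?_ (hgr Z hZX1)
  apply count_core a ha hpos q Z θ hZ1.le hθ0 hq
  rintro i ⟨hi, _⟩
  refine ⟨hi, ?_⟩
  have hy : 0 < Real.log Z := Real.log_pos hZ1
  have hyD : 2 * Real.log D / η ^ 2 < Real.log Z := by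
    rw [Real.lt_log_iff_exp_lt hZpos]
    exact hZE
  have hgg := gap_gen a ha hpos q hq Z hZ1 i hi
  have hxy : Real.log (a i : ℝ) ≤ Real.log Z := by
    apply Real.log_le_log (by exact_mod_cast hpos i)
    have h1 : a (i + 0) ≤ (range (q + 1)).lcm (fun j => a (i + j)) :=
      Nat.le_of_dvd (Nat.pos_of_ne_zero (lcm_ne_zero' a hpos i _))
        (dvd_lcm' a i (q + 1) 0 (by simp))
    have h2 : (a i : ℝ) ≤ (((range (q + 1)).lcm (fun j => a (i + j)) : ℕ) : ℝ) := by
      exact_mod_cast h1
    linarith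
  have hx0 : 0 ≤ Real.log (a i : ℝ) := Real.log_nonneg (by exact_mod_cast hpos i)
  have hlt : a i < a (i + q) := ha (by omega)
  set w : ℕ := a (i + q) - a i with hw
  have hwpos : 0 < w := by omega
  have hwR : (0 : ℝ) < w := by exact_mod_cast hwpos
  have haiR : (0 : ℝ) < a i := by exact_mod_cast hpos i
  have hy0 := hy.le
  rcases Nat.lt_or_ge w (a i) with hwT | hwT
  · -- the diameter is at most `D T ^ γ`
    have hsum : (w : ℝ) ≤ D * (a i : ℝ) ^ γ := by
      have h1 : ((a (i + q) : ℝ) - a i) = ∑ j ∈ range q, ((a (i + (j + 1)) : ℝ) - a (i + j)) := by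
        rw [Finset.sum_range_sub (fun j => (a (i + j) : ℝ))]
        simp
      have h2 : (w : ℝ) = (a (i + q) : ℝ) - a i := by
        rw [hw, Nat.cast_sub hlt.le]
      have h3 : (∑ j ∈ range q, ((a (i + (j + 1)) : ℝ) - a (i + j)))
          ≤ (range q).card • (max C 1 * (2 * (a i : ℝ) ^ γ)) := by
        apply Finset.sum_le_card_nsmul
        intro j hj
        rw [Finset.mem_range] at hj
        have h4 := hgaps (i + j)
        have h5 : (a (i + j) : ℝ) ≤ 2 * a i := by
          have h6 : a (i + j) ≤ a (i + q) := ha.monotone (by omega)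
          have h7 : a (i + q) ≤ 2 * a i := by omega
          exact_mod_cast h6.trans h7
        have h8 : (a (i + j) : ℝ) ^ γ ≤ 2 * (a i : ℝ) ^ γ := by
          calc (a (i + j) : ℝ) ^ γ ≤ (2 * (a i : ℝ)) ^ γ :=
                Real.rpow_le_rpow (by positivity) h5 hγ0
            _ = 2 ^ γ * (a i : ℝ) ^ γ := Real.mul_rpow (by norm_num) haiR.le
            _ ≤ 2 * (a i : ℝ) ^ γ := by
                apply mul_le_mul_of_nonneg_right _ (by positivity)
                calc (2 : ℝ) ^ γ ≤ 2 ^ (1 : ℝ) :=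
                      Real.rpow_le_rpow_of_exponent_le (by norm_num) (by linarith)
                  _ = 2 := Real.rpow_one 2
        have h9 : C * (a (i + j) : ℝ) ^ γ ≤ max C 1 * (2 * (a i : ℝ) ^ γ) := by
          calc C * (a (i + j) : ℝ) ^ γ ≤ max C 1 * (a (i + j) : ℝ) ^ γ :=
                mul_le_mul_of_nonneg_right (le_max_left _ _) (by positivity)
            _ ≤ max C 1 * (2 * (a i : ℝ) ^ γ) :=
                mul_le_mul_of_nonneg_left h8 (by linarith)
        have e10 : a (i + (j + 1)) = a (i + j + 1) := rfl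
        rw [e10]
        linarith
      rw [Finset.card_range, nsmul_eq_mul] at h3
      rw [h2, h1]
      calc _ ≤ (q : ℝ) * (max C 1 * (2 * (a i : ℝ) ^ γ)) := h3
        _ = D * (a i : ℝ) ^ γ := by rw [hD]; ring
    have hlogw : Real.log (w : ℝ) ≤ Real.log D + γ * Real.log (a i) := by
      have h1 := Real.log_le_log hwR hsum
      rw [Real.log_mul (by linarith) (by positivity), Real.log_rpow haiR] at h1
      exact h1
    set x : ℝ := Real.log (a i : ℝ) with hx
    set y : ℝ := Real.log Z with hydef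
    set lw : ℝ := Real.log (w : ℝ) with hlw
    set ld : ℝ := Real.log D with hld
    have hld0 : 0 ≤ ld := Real.log_nonneg hD1
    have hxq : x * y / (q + 1) ≤ (η / 2) * (x * y) := by
      have : x * y / (q + 1) = (1 / ((q : ℝ) + 1)) * (x * y) := by ring
      rw [this]
      exact mul_le_mul_of_nonneg_right hqη (mul_nonneg hx0 hy0)
    have hxg : x ≤ g * y := by
      by_contra hcon
      push Not at hcon
      have h1 : x ^ 2 ≤ (ld + γ * x) * y + (η / 2) * (x * y) := by
        have := mul_le_mul_of_nonneg_right hlogw hy0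
        linarith
      have h2 : x * (x - (γ + η / 2) * y) ≤ ld * y := by
        have e : x * (x - (γ + η / 2) * y)
            = x ^ 2 - ((ld + γ * x) * y + (η / 2) * (x * y)) + ld * y := by ring
        rw [e]
        linarith
      have h3 : η / 2 * y ≤ x - (γ + η / 2) * y := by
        rw [hg] at hcon
        have e : η / 2 * y + (γ + η / 2) * y = (γ + η) * y := by ring
        linarith
      have h4 : η * y ≤ x := by
        rw [hg] at hcon
        have e : (γ + η) * y = γ * y + η * y := by ring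
        have e' : 0 ≤ γ * y := mul_nonneg hγ0 hy0
        linarith
      have h5 : (η * y) * (η / 2 * y) ≤ x * (x - (γ + η / 2) * y) :=
        mul_le_mul h4 h3 (by positivity) hx0
      have h6 : (η * y) * (η / 2 * y) ≤ ld * y := h5.trans h2
      rw [div_lt_iff₀ (by positivity)] at hyD
      have h7 : ld * y < (η * y) * (η / 2 * y) := by
        have : (η * y) * (η / 2 * y) = (y * η ^ 2 / 2) * y := by ring
        rw [this]
        apply mul_lt_mul_of_pos_right _ hy
        linarith
      linarith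
    have h3 : x * y ≤ (lw + θ * y) * y := by
      have h4 : x * y / (q + 1) ≤ y ^ 2 / (q + 1) := by
        apply div_le_div_of_nonneg_right _ hq1.le
        nlinarith
      have e5 : (lw + θ * y) * y = lw * y + g * (1 - g) * y ^ 2 + y ^ 2 / (q + 1) := by
        rw [hθ]; field_simp; ring
      rw [e5]
      have h6 : 0 ≤ (g * y - x) * ((1 - g) * y - x) := by
        apply mul_nonneg (by linarith)
        have e6 : g * y ≤ (1 - g) * y := mul_le_mul_of_nonneg_right (by linarith) hy0
        linarith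
      have e7 : (g * y - x) * ((1 - g) * y - x) = g * (1 - g) * y ^ 2 - x * y + x ^ 2 := by ring
      rw [e7] at h6
      linarith
    exact le_of_mul_le_mul_right h3 hy
  · have h1 : Real.log (a i : ℝ) ≤ Real.log (w : ℝ) :=
      Real.log_le_log haiR (by exact_mod_cast hwT)
    have h2 : 0 ≤ θ * Real.log Z := mul_nonneg hθ0 hy0
    linarith

end Pool.Agent.Helper590.Lcm
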