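import Mathlib
import Pool.Agent.Helper590.Lcm.Gen

/-!
Sequences for which `gcd(a_n, a_{n+j})` is subpolynomial for every fixed `j`.
-/

set_option autoImplicit false

namespace Pool.Agent.Helper590.Lcm

open Finset

/-- Upper bound for the smallest term of a window from a bound for the pairwise gcds. -/
theorem first_le (b : ℕ → ℕ) (k L : ℕ) (g x : ℝ) (hk : 1 ≤ k) (hL : L ≠ 0)
    (hb : ∀ j ∈ range k, b j ∣ L) (hx : ∀ j ∈ range k, x ≤ Real.log (b j))
    (hg : ∀ i ∈ range k, ∀ j ∈ range k, i ≠ j →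
      Real.log ((Nat.gcd (b i) (b j) : ℕ) : ℝ) ≤ g) :
    2 * (k * x) ≤ k * (k - 1) * g + 2 * Real.log L := by
  have h0 := convex_ineq b k 1 L hL hb
  have h1 : (∑ i ∈ range k, ∑ j ∈ range k, Real.log ((Nat.gcd (b i) (b j) : ℕ) : ℝ))
      ≤ (∑ i ∈ range k, Real.log (b i)) + k * (k - 1) * g := by
    have h2 : ∀ i ∈ range k, (∑ j ∈ range k, Real.log ((Nat.gcd (b i) (b j) : ℕ) : ℝ))
        ≤ Real.log (b i) + (k - 1) * g := by
      intro i hi
      rw [← Finset.add_sum_erase _ _ hi, Nat.gcd_self]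
      have h3 : (∑ j ∈ (range k).erase i, Real.log ((Nat.gcd (b i) (b j) : ℕ) : ℝ))
          ≤ ((range k).erase i).card • g := by
        apply Finset.sum_le_card_nsmul
        intro j hj
        have hj' := Finset.mem_erase.mp hj
        exact hg i hi j hj'.2 (Ne.symm hj'.1)
      rw [Finset.card_erase_of_mem hi, Finset.card_range, nsmul_eq_mul, Nat.cast_sub hk] at h3
      push_cast at h3
      linarith
    calc _ ≤ ∑ i ∈ range k, (Real.log (b i) + (k - 1) * g) := Finset.sum_le_sum h2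
      _ = _ := by
          rw [Finset.sum_add_distrib, Finset.sum_const, Finset.card_range, nsmul_eq_mul]
          ring
  have h4 : k * x ≤ ∑ i ∈ range k, Real.log (b i) := by
    have h5 : (range k).card • x ≤ ∑ i ∈ range k, Real.log (b i) :=
      Finset.card_nsmul_le_sum _ _ _ hx
    rw [Finset.card_range, nsmul_eq_mul] at h5
    exact h5
  push_cast at h0
  linarith

/-- The full conclusion for sequences with subpolynomial gcds of neighbouring terms. -/
theorem small_gcd (a : ℕ → ℕ) (ha : StrictMono a) (hpos : ∀ n, 0 < a n)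
    (hgcd : ∀ j : ℕ, 1 ≤ j → ∀ η : ℝ, 0 < η → ∃ C : ℝ, ∀ n : ℕ,
      ((Nat.gcd (a n) (a (n + j)) : ℕ) : ℝ) ≤ C * (a n : ℝ) ^ η) (ε : ℝ) (hε : 0 < ε) :
    ∃ k : ℕ, 1 ≤ k ∧ ∀ X : ℝ, 0 < X →
      (({i : ℕ | (((range k).lcm (fun j => a (i + j)) : ℕ) : ℝ) < X}.ncard : ℕ) : ℝ)
        < X ^ ε := by
  classical
  obtain ⟨k0, hk0⟩ := exists_nat_gt (2 / ε)
  set k : ℕ := k0 + 1 with hk
  have hk1 : 1 ≤ k := by omega
  have hkR : (1 : ℝ) ≤ k := by exact_mod_cast hk1
  have hkpos : (0 : ℝ) < k := by linarith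
  set θ : ℝ := 2 / k with hθ
  have hθε : θ < ε := by
    have h1 : 2 / ε < k := by
      have : (k0 : ℝ) ≤ k := by exact_mod_cast (by omega : k0 ≤ k)
      linarith
    rw [div_lt_iff₀ hε] at h1
    rw [hθ, div_lt_iff₀ hkpos]
    linarith
  set η : ℝ := 1 / (k : ℝ) ^ 2 with hη
  have hη0 : 0 < η := by positivity
  choose! C hC using fun j (hj : 1 ≤ j) => hgcd j hj η hη0
  set D : ℝ := 1 + ∑ j ∈ range k, |C j| with hD
  have hD1 : 1 ≤ D := by
    have : 0 ≤ ∑ j ∈ range k, |C j| := Finset.sum_nonneg (fun _ _ => abs_nonneg _)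
    linarith
  have hCD : ∀ j ∈ range k, C j ≤ D := by
    intro j hj
    have h1 : |C j| ≤ ∑ j ∈ range k, |C j| :=
      Finset.single_le_sum (f := fun j => |C j|) (fun _ _ => abs_nonneg _) hj
    linarith [le_abs_self (C j)]
  obtain ⟨K0, hK0⟩ := exists_nat_ge (Real.exp ((k : ℝ) ^ 2 * Real.log D))
  refine ⟨K0 + k, by omega, ?_⟩
  intro X hX
  have hfin := finish a ha hpos (fun _ _ => True) ε k (K0 + k) (by omega) (by omega) ?_ X hX
  · simpa using hfin
  intro Z hZ
  have hK0K : (K0 : ℝ) ≤ ((K0 + k : ℕ) : ℝ) := by exact_mod_cast (by omega)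
  have hK1 : (1 : ℝ) ≤ ((K0 + k : ℕ) : ℝ) := by exact_mod_cast (by omega)
  have hZ1 : 1 < Z := by linarith
  have hZpos : 0 < Z := by linarith
  have hy : 0 < Real.log Z := Real.log_pos hZ1
  have hyD : (k : ℝ) ^ 2 * Real.log D < Real.log Z := by
    rw [Real.lt_log_iff_exp_lt hZpos]
    linarith
  have hlD : 0 ≤ Real.log D := Real.log_nonneg hD1
  -- every window starts at most at `Z ^ θ`
  have hloc : ∀ i ∈ {i : ℕ | (((range k).lcm (fun j => a (i + j)) : ℕ) : ℝ) < Z ∧ True},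
      (a i : ℝ) ≤ Z ^ θ := by
    rintro i ⟨hi, _⟩
    set L : ℕ := (range k).lcm (fun j => a (i + j)) with hLdef
    have hL0 : L ≠ 0 := lcm_ne_zero' a hpos i _
    have hterm : ∀ j ∈ range k, (a (i + j) : ℝ) ≤ Z := by
      intro j hj
      have h1 : a (i + j) ≤ L := Nat.le_of_dvd (Nat.pos_of_ne_zero hL0) (dvd_lcm' a i k j hj)
      have h2 : (a (i + j) : ℝ) ≤ (L : ℝ) := by exact_mod_cast h1
      linarith
    have hgb : ∀ p r : ℕ, p < r → r < k →
        Real.log ((Nat.gcd (a (i + p)) (a (i + r)) : ℕ) : ℝ) ≤ Real.log D + η * Real.log Z := by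
      intro p r hpr hr
      have h1 := hC (r - p) (by omega) (i + p)
      have e1 : i + p + (r - p) = i + r := by omega
      rw [e1] at h1
      have h2 : C (r - p) ≤ D := hCD (r - p) (by rw [Finset.mem_range]; omega)
      have h3 : (a (i + p) : ℝ) ^ η ≤ Z ^ η :=
        Real.rpow_le_rpow (by positivity) (hterm p (by rw [Finset.mem_range]; omega)) hη0.le
      have h4 : (0 : ℝ) ≤ (a (i + p) : ℝ) ^ η := by positivity
      have h5 : ((Nat.gcd (a (i + p)) (a (i + r)) : ℕ) : ℝ) ≤ D * Z ^ η := by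
        calc _ ≤ C (r - p) * (a (i + p) : ℝ) ^ η := h1
          _ ≤ D * (a (i + p) : ℝ) ^ η := mul_le_mul_of_nonneg_right h2 h4
          _ ≤ D * Z ^ η := mul_le_mul_of_nonneg_left h3 (by linarith)
      have h6 : (0 : ℝ) < ((Nat.gcd (a (i + p)) (a (i + r)) : ℕ) : ℝ) := by
        exact_mod_cast Nat.gcd_pos_of_pos_left _ (hpos _)
      have h7 := Real.log_le_log h6 h5
      rw [Real.log_mul (by linarith) (by positivity), Real.log_rpow hZpos] at h7
      exact h7
    have hf := first_le (fun j => a (i + j)) k L (Real.log D + η * Real.log Z)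
      (Real.log (a i)) hk1 hL0 (fun j hj => dvd_lcm' a i k j hj)
      (fun j _ => Real.log_le_log (by exact_mod_cast hpos i)
        (by exact_mod_cast ha.monotone (by omega)))
      (by
        intro p hp r hr hne
        rw [Finset.mem_range] at hp hr
        rcases Nat.lt_or_ge p r with h | h
        · exact hgb p r h hr
        · show Real.log ((Nat.gcd (a (i + p)) (a (i + r)) : ℕ) : ℝ) ≤ _
          rw [Nat.gcd_comm]
          exact hgb r p (by omega) hp)
    have hLX : Real.log (L : ℝ) ≤ Real.log Z :=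
      Real.log_le_log (by exact_mod_cast Nat.pos_of_ne_zero hL0) hi.le
    have hx : 0 ≤ Real.log (a i : ℝ) := Real.log_nonneg (by exact_mod_cast hpos i)
    set x : ℝ := Real.log (a i : ℝ) with hxdef
    set y : ℝ := Real.log Z with hydef
    have h8 : 2 * (k * x) ≤ 4 * y := by
      have h9 : (k : ℝ) * (k - 1) * (Real.log D + η * y) ≤ k ^ 2 * (Real.log D + η * y) := by
        apply mul_le_mul_of_nonneg_right
        · nlinarith
        · have : 0 ≤ η * y := mul_nonneg hη0.le hy.le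
          linarith
      have h10 : (k : ℝ) ^ 2 * (Real.log D + η * y) = k ^ 2 * Real.log D + y := by
        rw [hη]; field_simp
      linarith
    have h11 : x ≤ θ * y := by
      rw [hθ]
      have e : 2 / (k : ℝ) * y = (2 * y) / k := by ring
      rw [e, le_div_iff₀ hkpos]
      linarith
    have haiR : (0 : ℝ) < a i := by exact_mod_cast hpos i
    have h12 : Real.log (Z ^ θ) = θ * y := Real.log_rpow hZpos θ
    rw [← h12] at h11
    exact (Real.log_le_log_iff haiR (by positivity)).mp h11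
  -- count
  have hsub : {i : ℕ | (((range k).lcm (fun j => a (i + j)) : ℕ) : ℝ) < Z ∧ True}
      ⊆ {i : ℕ | i < ⌊Z ^ θ⌋₊} := by
    intro i hi
    have h1 := hloc i hi
    have h2 : ∀ n, n + 1 ≤ a n := by
      intro n
      induction n with
      | zero => exact hpos 0
      | succ n ih =>
        have := ha (Nat.lt_succ_self n)
        simp only [Nat.succ_eq_add_one] at this
        omega
    have h3 : ((i + 1 : ℕ) : ℝ) ≤ Z ^ θ := by
      have : ((i + 1 : ℕ) : ℝ) ≤ (a i : ℝ) := by exact_mod_cast h2 i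
      linarith
    have h4 : i + 1 ≤ ⌊Z ^ θ⌋₊ := Nat.le_floor h3
    exact h4
  have hcard : ({i : ℕ | (((range k).lcm (fun j => a (i + j)) : ℕ) : ℝ) < Z ∧ True}.ncard : ℕ)
      ≤ ⌊Z ^ θ⌋₊ := by
    calc _ ≤ ({i : ℕ | i < ⌊Z ^ θ⌋₊} : Set ℕ).ncard :=
          Set.ncard_le_ncard hsub (Set.finite_lt_nat _)
      _ = ⌊Z ^ θ⌋₊ := by
          have : ({i : ℕ | i < ⌊Z ^ θ⌋₊} : Set ℕ) = ↑(Finset.range ⌊Z ^ θ⌋₊) := by
            ext i; simp
          rw [this, Set.ncard_coe_finset, Finset.card_range]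
  have h13 : (({i : ℕ | (((range k).lcm (fun j => a (i + j)) : ℕ) : ℝ) < Z ∧ True}.ncard : ℕ) :
      ℝ) ≤ Z ^ θ := by
    have h14 : ((⌊Z ^ θ⌋₊ : ℕ) : ℝ) ≤ Z ^ θ := Nat.floor_le (by positivity)
    have h15 : (({i : ℕ | (((range k).lcm (fun j => a (i + j)) : ℕ) : ℝ) < Z ∧ True}.ncard : ℕ) :
      ℝ) ≤ ((⌊Z ^ θ⌋₊ : ℕ) : ℝ) := by exact_mod_cast hcard
    linarith
  have h16 : Z ^ θ < Z ^ ε := Real.rpow_lt_rpow_of_exponent_lt hZ1 hθε
  linarith

end Pool.Agent.Helper590.Lcm
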